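import Pool.Agent.Helper49_HM.Top

/-!
# Module LIFT: continuous argument on a compact convex set
-/

namespace Pool.Agent.HM.H44

open Complex Set Topology

noncomputable section

theorem lift : LiftStmt := by
  intro E _ _ K hK hKc f hf hf0 p₀ hp₀ θ₀ hθ₀
  -- lower bound of the norm
  obtain ⟨c, hc, hcf⟩ : ∃ c : ℝ, 0 < c ∧ ∀ p ∈ K, c ≤ ‖f p‖ := by
    obtain ⟨p₁, hp₁, hmin⟩ := hKc.exists_isMinOn ⟨p₀, hp₀⟩ hf.norm
    exact ⟨‖f p₁‖, norm_pos_iff.2 (hf0 p₁ hp₁), fun p hp => hmin hp⟩
  -- uniform continuity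
  obtain ⟨δ, hδ, hδf⟩ := Metric.uniformContinuousOn_iff.1
    (hKc.uniformContinuousOn_of_continuous hf) c hc
  -- bound of the diameter
  obtain ⟨R, hR⟩ := hKc.isBounded.subset_closedBall p₀
  obtain ⟨n, hn⟩ := exists_nat_gt (max 0 (R / δ))
  have hn0 : (0 : ℝ) < n := lt_of_le_of_lt (le_max_left _ _) hn
  have hRn : R / n < δ := by
    rw [div_lt_iff₀ hn0]
    have h := lt_of_le_of_lt (le_max_right _ _) hn
    rw [div_lt_iff₀ hδ] at h
    linarith
  -- the subdivision points
  set pt : ℕ → E → E :=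
    fun k p => p₀ + ((k : ℝ) / n) • (p - p₀) with hpt
  have hptK : ∀ k ≤ n, ∀ p ∈ K, pt k p ∈ K := by
    intro k hk p hp
    refine hK.add_smul_sub_mem hp₀ hp ⟨by positivity, ?_⟩
    rw [div_le_one hn0]
    exact_mod_cast hk
  have hdist : ∀ k, ∀ p ∈ K, dist (pt (k + 1) p) (pt k p) < δ := by
    intro k p hp
    have h1 : pt (k + 1) p - pt k p = (1 / (n : ℝ)) • (p - p₀) := by
      simp only [hpt]
      rw [add_sub_add_left_eq_sub, ← sub_smul]
      congr 1
      push_cast
      ring
    rw [dist_eq_norm, h1, norm_smul, Real.norm_eq_abs, abs_of_pos (by positivity)]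
    have h2 : ‖p - p₀‖ ≤ R := by
      have := hR hp
      rwa [Metric.mem_closedBall, dist_eq_norm] at this
    calc 1 / (n : ℝ) * ‖p - p₀‖ ≤ 1 / (n : ℝ) * R := by gcongr
      _ = R / n := by ring
      _ < δ := hRn
  -- the ratios
  set r : ℕ → E → ℂ := fun k p => f (pt (k + 1) p) / f (pt k p) with hr
  have hr1 : ∀ k < n, ∀ p ∈ K, r k p ∈ slitPlane := by
    intro k hk p hp
    have hk0 := hf0 _ (hptK k hk.le p hp)
    have h1 : ‖r k p - 1‖ < 1 := by
      have h2 : r k p - 1 = (f (pt (k + 1) p) - f (pt k p)) / f (pt k p) := by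
        simp only [hr]
        field_simp
      rw [h2, norm_div, div_lt_one (norm_pos_iff.2 hk0), ← dist_eq_norm]
      exact (hδf _ (hptK (k + 1) hk p hp) _ (hptK k hk.le p hp) (hdist k p hp)).trans_le
        (hcf _ (hptK k hk.le p hp))
    rw [mem_slitPlane_iff]
    left
    have h3 := (abs_re_le_norm (r k p - 1)).trans_lt h1
    rw [sub_re, one_re, abs_lt] at h3
    linarith [h3.1]
  have hptc : ∀ k, Continuous (pt k) := by
    intro k
    simp only [hpt]
    fun_prop
  have hfc : ∀ k ≤ n, ContinuousOn (fun p => f (pt k p)) K := fun k hk =>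
    hf.comp (hptc k).continuousOn (fun p hp => hptK k hk p hp)
  have hargc : ∀ k < n, ContinuousOn (fun p => arg (r k p)) K := by
    intro k hk p hp
    refine (continuousAt_arg (hr1 k hk p hp)).comp_continuousWithinAt (f := r k) ?_
    exact ((hfc (k + 1) hk).div (hfc k hk.le)
      (fun p hp => hf0 _ (hptK k hk.le p hp))) p hp
  refine ⟨fun p => θ₀ + ∑ k ∈ Finset.range n, arg (r k p), ?_, ?_, ?_⟩
  · refine continuousOn_const.add (continuousOn_finset_sum _ fun k hk => ?_)
    exact hargc k (Finset.mem_range.1 hk)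
  · have h1 : ∀ k ∈ Finset.range n, arg (r k p₀) = 0 := by
      intro k hk
      have h2 : r k p₀ = 1 := by
        simp only [hr, hpt, sub_self, smul_zero, add_zero]
        exact div_self (hf0 _ hp₀)
      rw [h2, arg_one]
    simp only
    rw [Finset.sum_eq_zero h1, add_zero]
  · intro p hp
    -- induction along the subdivision
    have key : ∀ k ≤ n, f (pt k p) = ‖f (pt k p)‖ *
        exp (I * ((θ₀ + ∑ j ∈ Finset.range k, arg (r j p) : ℝ) : ℂ)) := by
      intro k
      induction k with
      | zero =>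
        intro _
        have h0 : pt 0 p = p₀ := by simp [hpt]
        rw [h0]
        simpa using hθ₀
      | succ k ih =>
        intro hk
        have hk' : k < n := hk
        have h1 := ih hk'.le
        have h2 : f (pt (k + 1) p) = r k p * f (pt k p) := by
          simp only [hr]
          field_simp [hf0 _ (hptK k hk'.le p hp)]
        have h3 : r k p = ‖r k p‖ * exp (arg (r k p) * I) := (norm_mul_exp_arg_mul_I _).symm
        have h4 : ‖f (pt (k + 1) p)‖ = ‖r k p‖ * ‖f (pt k p)‖ := by rw [h2, norm_mul]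
        rw [h4, Finset.sum_range_succ, h2]
        conv_lhs => rw [h1, h3]
        push_cast
        have h5 : I * ((θ₀ : ℂ) + ((∑ j ∈ Finset.range k, (arg (r j p) : ℂ)) + arg (r k p))) =
            arg (r k p) * I + I * (θ₀ + ∑ j ∈ Finset.range k, (arg (r j p) : ℂ)) := by ring
        rw [h5, exp_add]
        ring
    have h := key n le_rfl
    have hpn : pt n p = p := by
      simp only [hpt]
      rw [div_self hn0.ne', one_smul]
      abel
    rw [hpn] at h
    exact h

end

end Pool.Agent.HM.H44
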